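import Pool.Agent.Helper67.NO.St1

/-!
# Project NO (MP_26be5b_ag), module BL (blocks and levels)
-/

set_option autoImplicit false

namespace Pool.Agent.Helper29.NO

open Pool.Agent.Helper67.NO
open Matrix
open scoped Matrix.Norms.Frobenius ContDiff Topology

section

variable {ι κ : Type} [Fintype ι] [DecidableEq ι] [Fintype κ] [DecidableEq κ]

/-- degree of a matrix -/
private def Dg (lev : κ → ℕ) (d : ℤ) (x : Matrix (ι ⊕ κ) (ι ⊕ κ) ℂ) : Prop :=
  ∀ p q, x p q ≠ 0 → (lv lev q : ℤ) = lv lev p + d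

omit [Fintype ι] [DecidableEq ι] [Fintype κ] [DecidableEq κ] in
private theorem dg_low {lev : κ → ℕ} {x : Matrix (ι ⊕ κ) (ι ⊕ κ) ℂ} : Low lev x ↔ Dg lev 1 x := by
  constructor
  · intro h p q hpq
    have := h p q hpq
    omega
  · intro h p q hpq
    have := h p q hpq
    omega

omit [Fintype ι] [DecidableEq ι] [Fintype κ] [DecidableEq κ] in
private theorem dg_rai {lev : κ → ℕ} {x : Matrix (ι ⊕ κ) (ι ⊕ κ) ℂ} : Rai lev x ↔ Dg lev (-1) x := by
  constructor
  · intro h p q hpq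
    have := h p q hpq
    omega
  · intro h p q hpq
    have := h p q hpq
    omega

omit [Fintype ι] [DecidableEq ι] [Fintype κ] [DecidableEq κ] in
private theorem dg_lev0 {lev : κ → ℕ} {x : Matrix (ι ⊕ κ) (ι ⊕ κ) ℂ} : Lev0 lev x ↔ Dg lev 0 x := by
  constructor
  · intro h p q hpq
    have := h p q hpq
    omega
  · intro h p q hpq
    have := h p q hpq
    omega

omit [DecidableEq ι] [DecidableEq κ] in
private theorem dg_mul {lev : κ → ℕ} {d e : ℤ} {x y : Matrix (ι ⊕ κ) (ι ⊕ κ) ℂ}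
    (hx : Dg lev d x) (hy : Dg lev e y) : Dg lev (d + e) (x * y) := by
  intro p q hpq
  rw [Matrix.mul_apply] at hpq
  obtain ⟨r, _, hr⟩ := Finset.exists_ne_zero_of_sum_ne_zero hpq
  have h1 := hx p r (left_ne_zero_of_mul hr)
  have h2 := hy r q (right_ne_zero_of_mul hr)
  omega

omit [Fintype ι] [DecidableEq ι] [Fintype κ] [DecidableEq κ] in
private theorem dg_add {lev : κ → ℕ} {d : ℤ} {x y : Matrix (ι ⊕ κ) (ι ⊕ κ) ℂ}
    (hx : Dg lev d x) (hy : Dg lev d y) : Dg lev d (x + y) := by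
  intro p q hpq
  by_cases h : x p q = 0
  · by_cases h' : y p q = 0
    · exact absurd (by rw [Matrix.add_apply, h, h', add_zero]) hpq
    · exact hy p q h'
  · exact hx p q h

omit [Fintype ι] [DecidableEq ι] [Fintype κ] [DecidableEq κ] in
private theorem dg_sub {lev : κ → ℕ} {d : ℤ} {x y : Matrix (ι ⊕ κ) (ι ⊕ κ) ℂ}
    (hx : Dg lev d x) (hy : Dg lev d y) : Dg lev d (x - y) := by
  intro p q hpq
  by_cases h : x p q = 0
  · by_cases h' : y p q = 0
    · exact absurd (by rw [Matrix.sub_apply, h, h', sub_zero]) hpq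
    · exact hy p q h'
  · exact hx p q h

omit [Fintype ι] [DecidableEq ι] [Fintype κ] [DecidableEq κ] in
private theorem dg_star {lev : κ → ℕ} {d e : ℤ} {x : Matrix (ι ⊕ κ) (ι ⊕ κ) ℂ}
    (hx : Dg lev d x) (he : e = -d) : Dg lev e xᴴ := by
  intro p q hpq
  rw [Matrix.conjTranspose_apply] at hpq
  have h := hx q p (fun h0 => hpq (by rw [h0, star_zero]))
  omega

omit [DecidableEq ι] [DecidableEq κ] in
private theorem dg_br {lev : κ → ℕ} {d e f : ℤ} {x y : Matrix (ι ⊕ κ) (ι ⊕ κ) ℂ}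
    (hx : Dg lev d x) (hy : Dg lev e y) (hf : f = d + e) : Dg lev f (br x y) := by
  subst hf
  unfold br
  refine dg_sub (dg_mul hx hy) ?_
  rw [add_comm]
  exact dg_mul hy hx

omit [Fintype ι] [DecidableEq ι] [Fintype κ] [DecidableEq κ] in
private theorem lev0_iff (lev : κ → ℕ) (x : Matrix (ι ⊕ κ) (ι ⊕ κ) ℂ) :
    Lev0 lev x ↔ ∃ h y, Lvl lev y ∧ x = bd h y := by
  constructor
  · intro hx
    refine ⟨x.toBlocks₁₁, x.toBlocks₂₂, fun p q hpq => ?_, ?_⟩
    · have h := hx (Sum.inr p) (Sum.inr q) hpq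
      simp only [lv] at h
      omega
    · have h12 : x.toBlocks₁₂ = 0 := by
        ext p q
        by_contra hne
        have h := hx (Sum.inl p) (Sum.inr q) hne
        simp only [lv] at h
        omega
      have h21 : x.toBlocks₂₁ = 0 := by
        ext p q
        by_contra hne
        have h := hx (Sum.inr p) (Sum.inl q) hne
        simp only [lv] at h
        omega
      unfold bd
      rw [← h12]
      conv_rhs => rw [h12, ← h21]
      conv_lhs => rw [← fromBlocks_toBlocks x]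
      rw [h12]
  · rintro ⟨h, y, hy, rfl⟩ p q hpq
    rcases p with p | p <;> rcases q with q | q
    · rfl
    · exact absurd rfl hpq
    · exact absurd rfl hpq
    · simp only [lv]
      rw [hy p q hpq]

omit [Fintype ι] [DecidableEq ι] [Fintype κ] [DecidableEq κ] in
private theorem dg_bd {lev : κ → ℕ} (x : Matrix ι ι ℂ) {y : Matrix κ κ ℂ} (hy : Lvl lev y) :
    Dg lev 0 (bd x y) :=
  dg_lev0.1 ((lev0_iff lev _).2 ⟨x, y, hy, rfl⟩)

omit [Fintype ι] [DecidableEq ι] [Fintype κ] [DecidableEq κ] in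
private theorem bd_star (x : Matrix ι ι ℂ) : (bd x (0 : Matrix κ κ ℂ))ᴴ = bd xᴴ 0 := by
  unfold bd
  rw [fromBlocks_conjTranspose, conjTranspose_zero, conjTranspose_zero, conjTranspose_zero]

omit [DecidableEq ι] [DecidableEq κ] in
private theorem low_mul {lev : κ → ℕ} {a : Matrix (ι ⊕ κ) (ι ⊕ κ) ℂ} (ha : Low lev a)
    (x : Matrix ι ι ℂ) : a * bd x 0 = 0 := by
  ext p q
  rw [Matrix.mul_apply]
  refine Finset.sum_eq_zero fun r _ => ?_
  rcases r with r | r
  · have h : a p (Sum.inl r) = 0 := by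
      by_contra hne
      have h := ha p (Sum.inl r) hne
      simp only [lv] at h
      omega
    rw [h, zero_mul]
  · have h : bd x (0 : Matrix κ κ ℂ) (Sum.inr r) q = 0 := by
      rcases q with q | q
      · rfl
      · rfl
    rw [h, mul_zero]

omit [DecidableEq ι] [DecidableEq κ] in
private theorem rai_mul {lev : κ → ℕ} {b : Matrix (ι ⊕ κ) (ι ⊕ κ) ℂ} (hb : Rai lev b)
    (x : Matrix ι ι ℂ) : bd x 0 * b = 0 := by
  ext p q
  rw [Matrix.mul_apply]
  refine Finset.sum_eq_zero fun r _ => ?_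
  rcases r with r | r
  · have h : b (Sum.inl r) q = 0 := by
      by_contra hne
      have h := hb (Sum.inl r) q hne
      simp only [lv] at h
      omega
    rw [h, mul_zero]
  · have h : bd x (0 : Matrix κ κ ℂ) p (Sum.inr r) = 0 := by
      rcases p with p | p
      · rfl
      · rfl
    rw [h, zero_mul]

omit [DecidableEq ι] [DecidableEq κ] in
private theorem mom_herm (a b : Matrix (ι ⊕ κ) (ι ⊕ κ) ℂ) : (mom a b).IsHermitian := by
  unfold Matrix.IsHermitian mom br
  rw [conjTranspose_add, conjTranspose_sub, conjTranspose_sub, conjTranspose_mul, conjTranspose_mul,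
    conjTranspose_mul, conjTranspose_mul, conjTranspose_conjTranspose, conjTranspose_conjTranspose]

end

theorem pBL : StBL := by
  intro ι κ _ _ _ _ lev
  refine ⟨lev0_iff lev, fun a ha x => ⟨low_mul ha x, ?_⟩, fun b hb x => ⟨rai_mul hb x, ?_⟩,
    fun a ha x y hy => ⟨?_, ?_⟩, fun b hb x y hy => ⟨?_, ?_⟩, fun a => ⟨⟨fun h => ?_, fun h => ?_⟩,
    ⟨fun h => ?_, fun h => ?_⟩⟩, fun a b ha hb => ?_, fun a b v w ha hb hv hw => ⟨?_, ?_, ?_⟩⟩
  · have h := congrArg conjTranspose (low_mul ha xᴴ)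
    rw [conjTranspose_mul, bd_star, conjTranspose_conjTranspose, conjTranspose_zero] at h
    exact h
  · have h := congrArg conjTranspose (rai_mul hb xᴴ)
    rw [conjTranspose_mul, bd_star, conjTranspose_conjTranspose, conjTranspose_zero] at h
    exact h
  · exact dg_low.2 (by simpa using dg_mul (dg_bd x hy) (dg_low.1 ha))
  · exact dg_low.2 (by simpa using dg_mul (dg_low.1 ha) (dg_bd x hy))
  · exact dg_rai.2 (by simpa using dg_mul (dg_bd x hy) (dg_rai.1 hb))
  · exact dg_rai.2 (by simpa using dg_mul (dg_rai.1 hb) (dg_bd x hy))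
  · exact dg_rai.2 (dg_star (dg_low.1 h) rfl)
  · have h1 := dg_star (dg_rai.1 h) (e := 1) (by norm_num)
    rw [conjTranspose_conjTranspose] at h1
    exact dg_low.2 h1
  · exact dg_low.2 (dg_star (dg_rai.1 h) (by norm_num))
  · have h1 := dg_star (dg_low.1 h) (e := -1) rfl
    rw [conjTranspose_conjTranspose] at h1
    exact dg_rai.2 h1
  · have h1 : Lev0 lev (mom a b) := dg_lev0.2 (dg_add
      (dg_br (dg_low.1 ha) (dg_star (dg_low.1 ha) rfl) (by norm_num))
      (dg_br (dg_rai.1 hb) (dg_star (dg_rai.1 hb) rfl) (by norm_num)))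
    obtain ⟨h, y, hy, he⟩ := (lev0_iff lev _).1 h1
    have h2 := mom_herm a b
    rw [he] at h2
    have h3 := (Matrix.isHermitian_fromBlocks_iff (A := h) (B := 0) (C := 0) (D := y)).1 h2
    exact ⟨h, y, hy, he, h3.1, h3.2.2.2⟩
  · exact (lev0_iff lev _).1 (dg_lev0.2 (dg_add
      (dg_br (dg_low.1 hv) (dg_star (dg_low.1 ha) rfl) (by norm_num))
      (dg_br (dg_rai.1 hw) (dg_star (dg_rai.1 hb) rfl) (by norm_num))))
  · exact (lev0_iff lev _).1 (dg_lev0.2 (dg_add
      (dg_br (dg_low.1 hv) (dg_rai.1 hb) (by norm_num))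
      (dg_br (dg_low.1 ha) (dg_rai.1 hw) (by norm_num))))
  · exact (lev0_iff lev _).1 (dg_lev0.2 (dg_add (dg_add
      (dg_br (dg_low.1 hv) (dg_star (dg_low.1 ha) rfl) (by norm_num))
      (dg_br (dg_low.1 ha) (dg_star (dg_low.1 hv) rfl) (by norm_num))) (dg_add
      (dg_br (dg_rai.1 hw) (dg_star (dg_rai.1 hb) rfl) (by norm_num))
      (dg_br (dg_rai.1 hb) (dg_star (dg_rai.1 hw) rfl) (by norm_num)))))

end Pool.Agent.Helper29.NO
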